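import Pool.Agent.K9h67.EW.Dm

set_option autoImplicit false

/-! # Deligne's conjecture and test fields of a degree divisible by `N`

Let `M` be a motive over `ℚ` with coefficients in the number field `E`, pure of weight `w` and without
`(w/2, w/2)`-classes. The theorem only uses the data of `M` in `Pool.Agent.K9h41.DC.MotiveData` (in
`Pool.Agent.K9h41.DC.Df`): the characteristic polynomials of the Frobenius elements, with
coefficients in `E`, outside a finite set of primes, and for every embedding `ι` of `E` in `ℂ` the
matrices of Deligne's isomorphisms `I⁺` and `I⁻` in bases over `E`, whose determinants are the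
periods `c⁺` and `c⁻` at `ι`. The Euler factors at the primes of the finite set are left out; this
changes the values of the L-functions by factors in `E`.

For a number field `k` let `M_k` be the base change of `M` to `k`. Deligne's conjecture for `M_k` at
`m` (`DeligneWith D k m e`) is that there is one `e ∈ E` such that for all embeddings `ι` the
L-function at `ι` has at `m` the value
`ι(e) (2 π i)^(m n [k : ℚ]) c^ε(M)^(r₁ + r₂) c^(-ε)(M)^(r₂) √d_k^n`, with the sign `ε` of `(-1)^m`.

**Test fields.** Fix a finite set `S` of prime numbers. A test field (`TestField S k`) is a totally
real number field `k` in which all primes of `S` split completely (`SplitsAt r k`: the minimal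
polynomials of the elements of `k` split over `ℚ_r`); one may take for `S` the primes of bad
reduction. `ℚ` is a test field.

**The theorem.** Let `a` be any natural number. Suppose that for every odd prime number `l` there is
a number `N`, prime to `l` and not divisible by `2 ^ (a + 1)`, such that Deligne's conjecture at `m`
is true for `M_F` for all test fields `F` whose degree is divisible by `N`, with nonzero L-values
(this is automatic for `m > 1 + w/2`). Nothing is supposed about `M` itself. For example this may be
known for one number `N = 2 ^ a`, as large as one likes, or (`a = 0`) for two odd numbers `N` which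
are coprime, as large as one likes. Then:

(0) The conjecture is true for `M_k` for all test fields `k` whose degree is divisible by `2 ^ a`,
with the exact field of rationality `E`. For `a = 0` these are all test fields, in particular `ℚ`.

(1) If the conjecture is true for `M_(k₀)`, for one single test field `k₀` of odd degree, then it is
true for `M_k` for all test fields `k`, in particular for `M` (the case `k = ℚ`), with the exact
field of rationality `E`. No continuation of L-functions is assumed for this.

(2) Without `k₀`, and if `L(s, M)` has a meromorphic continuation to a neighbourhood of the half plane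
`Re s ≥ m` (the problem assumes continuation): the value of `L(s, M)` at `m` exists and is not zero,
its power with the exponent `2 ^ a` is what the conjecture predicts (with one `δ ∈ E^×` for all
`ι`), and for all test fields `k` one has `L(m, M_k) = ι(e_k) L(m, M)^[k : ℚ] √d_k^n` with
`e_k ∈ E^×`, without any period. So the conjecture for all test fields is reduced to the extraction
of one root of order `2 ^ a`, the same for all fields.

For example it is enough to know the conjecture over all test fields of even degree and over one
test field of odd degree. (The parity of `[F : ℚ]` plays a role in the theory of automorphic forms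
over totally real fields `F`: for even degree there is a totally definite quaternion algebra over `F`
which splits at all finite places.)

**The proof.** First, for an odd prime factor `p` of one of the numbers `N` and a test field `k`
there are test fields `K ⊇ k`, Galois over `ℚ`, such that `Gal(K / k)` has a quotient `(ℤ/p)²`
(`Pool.Agent.H391R2.R1.exists_split_field`, `exists_map`); the relation `p · 1 = ∑ Ind 1 - Ind 1` for
this quotient expresses the `p`-th power of the class of the L-function of `M_k`, modulo the families
of functions which continue with a value in `E^×` after division by the period, by the classes for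
fields of a degree divisible by `p [k : ℚ]` (`step_p`, `kill`). This gives (0). So one may suppose
from now on that the conjecture is known for the test fields of a degree divisible by `2 ^ a`.

For a finite Galois extension `K / ℚ` every relation `∑ n_U Ind_U 1 = 0` between the
permutation characters of subgroups of `Gal(K / ℚ)` gives a relation between the L-functions of the
`M_(K^U)`, and between Deligne's periods (`Pool.Agent.K9h41.DC`). So the theorem follows from
relations which express `Ind_V 1 - [G : V]` and `2 ^ a` by the `Ind_U 1` with `[G : U]` divisible by
`2 ^ a`, and such relations do not exist in a given group `G`; they exist after passing to a larger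
field. Given a Galois test field `N` there is `b ∈ N`, totally positive and near to `1` at the primes
of `S`, such that no nonempty product of different conjugates of `b` is a square (`elt`); let `K` be
generated over `N` by the square roots of the conjugates of `b` and by `√l₁`, `√l₂`. Then `K` is a
test field, `E' = Gal(K / N)` has exponent two, and no element `≠ 1` of odd order of `Gal(K / ℚ)`
commutes with `E'`. Therefore the hyperelementary subgroups of odd index in a group `V ⊇ E'` are its
Sylow 2-subgroups, and by Solomon's theorem `Ind_V 1` is congruent to a multiple of `Ind_P 1`, `P` a
Sylow 2-subgroup of `V` (`sol`). Two subgroups of index two in a group `S₀` are compared by the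
relation of the dihedral group of order eight, applied to the square roots of the norms of `b`
(`quad`), two 2-subgroups of equal order by a chain of such steps (`chain`), and `2 Ind_V 1` is
reduced by `√l₁`, `√l₂` (`v_sq`). Induction on `a` gives the theorem (`step`). -/

namespace Pool.Agent.Results.MP_100fe7_nt.DivisibleDegreeTestFields

open NumberField Filter Topology Pool.Agent.K9h41.DC Pool.Agent.K9h67.EV

/-- **Deligne's conjecture and test fields of a degree divisible by `N`.** Let `D` be the data of
a motive `M` over `ℚ` with coefficients in the number field `E`, pure of weight `w`, let `m` be an
integer, `a` a natural number and `S` a finite set of primes. A test field is a totally real number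
field in which all primes of `S` split completely. Suppose that for every odd prime number `l` there
is a number `N`, prime to `l` and not divisible by `2 ^ (a + 1)`, such that Deligne's conjecture at
`m` holds for the base change of `M` to every test field of a degree divisible by `N`, and, if
`m ≤ 1 + w/2`, that the value at `m` of its L-function is not zero.

(0) Then Deligne's conjecture at `m` holds for the base changes of `M` to all test fields of a degree
divisible by `2 ^ a`, with a nonzero number `e` of `E`.

(1) If Deligne's conjecture at `m` holds for one test field `k₀` of odd degree, with a value which is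
not zero, then it holds for the base changes of `M` to all test fields `k` (also `k = ℚ`), with a
nonzero number `e` of `E`.

(2) In any case, if `L(s, M)` has a meromorphic continuation to a neighbourhood of `Re s ≥ m`, then
there are `δ ∈ E^×` and numbers `z ι`, the values of `L(s, M)` at `m`, with
`(z ι) ^ (2 ^ a) = ι(δ) ((2 π i)^(m n) c^ε(M))^(2 ^ a)`, such that for every test field `k` there is
`e ∈ E^×` such that for all embeddings `ι` of `E` the value at `m` of the L-function of the base
change of `M` to `k` is `ι(e) (z ι)^[k : ℚ] √d_k^n`. -/
theorem result {E : Type} [Field E] [NumberField E] (D : MotiveData E) (m : ℤ) (a : ℕ)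
    (S : Finset ℕ)
    (hD : ∀ l : ℕ, l.Prime → l ≠ 2 → ∃ N : ℕ, ¬ l ∣ N ∧ ¬ 2 ^ (a + 1) ∣ N ∧
      ∀ (F : Type) [Field F] [NumberField F], TestField S F → N ∣ Module.finrank ℚ F →
        (∃ e : E, DeligneWith D F m e) ∧
        ((m : ℝ) ≤ 1 + (D.w : ℝ) / 2 → ∃ ι : E →+* ℂ, ¬ HasLValue D ι F m 0)) :
    (∀ (k : Type) [Field k] [NumberField k], TestField S k → 2 ^ a ∣ Module.finrank ℚ k →
      ∃ e : E, e ≠ 0 ∧ DeligneWith D k m e) ∧
    (∀ (k₀ : Type) [Field k₀] [NumberField k₀], TestField S k₀ → Odd (Module.finrank ℚ k₀) →
      (∃ e : E, DeligneWith D k₀ m e) →
      ((m : ℝ) ≤ 1 + (D.w : ℝ) / 2 → ∃ ι : E →+* ℂ, ¬ HasLValue D ι k₀ m 0) →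
        ∀ (k : Type) [Field k] [NumberField k], TestField S k →
          ∃ e : E, e ≠ 0 ∧ DeligneWith D k m e) ∧
    ((∀ ι : E →+* ℂ, ∃ f : ℂ → ℂ, (∀ s : ℂ, (m : ℝ) ≤ s.re → MeromorphicAt f s) ∧
        ∀ s : ℂ, 1 + (D.w : ℝ) / 2 < s.re → HasProd (fun v => eulerFactor D ι ℚ v s) (f s)) →
      ∃ (δ : E) (z : (E →+* ℂ) → ℂ), δ ≠ 0 ∧
        (∀ ι, HasLValue D ι ℚ m (z ι) ∧ z ι ^ 2 ^ a
          = ι δ * ((2 * Real.pi * Complex.I) ^ (m * D.n) * D.period ι m) ^ 2 ^ a) ∧
        ∀ (k : Type) [Field k] [NumberField k], TestField S k →
          ∃ (e : E) (d : ℂ), e ≠ 0 ∧ d ^ 2 = (discr k : ℂ) ∧ ∀ ι : E →+* ℂ,
            HasLValue D ι k m (ι e * z ι ^ Module.finrank ℚ k * d ^ D.n)) :=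
  Pool.Agent.K9h67.EW.main_dm D m a S hD

end Pool.Agent.Results.MP_100fe7_nt.DivisibleDegreeTestFields
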