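import Pool.Agent.K9h41.DC.Nv

set_option autoImplicit false

/-! # Deligne's conjecture and hyperelementary base change

Let `M` be a motive over `ℚ` with coefficients in the number field `E`, pure of weight `w` and without
`(w/2, w/2)`-classes. The theorem only uses the data of `M` in
`Pool.Agent.K9h41.DC.MotiveData` (in `Pool.Agent.K9h41.DC.Df`): the characteristic polynomials of
the Frobenius elements, with coefficients in `E`, outside a finite set of primes, and for every
embedding `ι` of `E` in `ℂ` the matrices of Deligne's isomorphisms `I⁺` and `I⁻` in bases over `E`,
whose determinants are the periods `c⁺` and `c⁻` at `ι`. The Euler factors at the primes of the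
finite set are left out; this changes the values of the L-functions by factors in `E`.

For a number field `k` let `M_k` be the base change of `M` to `k`; by restriction of scalars it is
again a motive over `ℚ`, the tensor product of `M` and `H⁰(Spec k)`. Its L-function is the product of
the Euler factors `det(1 - Frob_v N(v)^(-s) | M)⁻¹` over the primes `v` of `k`, and its period is

  `c^ε(M_k) = c^ε(M)^(r₁ + r₂) c^(-ε)(M)^(r₂) √d^n`   (up to factors in `E^×`),

where `2 n` is the rank of `M`, `k` has `r₁` real and `r₂` complex places and the discriminant `d`. So
Deligne's conjecture for `M_k` at `m` is that there is one `e ∈ E` such that for all embeddings `ι`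
the L-function at `ι` has at `m` the value
`ι(e) (2 π i)^(m n [k : ℚ]) c^ε(M)^(r₁ + r₂) c^(-ε)(M)^(r₂) √d^n`, with the sign `ε` of `(-1)^m`
(`DeligneWith D k m e`).

The theorem: let `K / ℚ` be a finite Galois extension. If Deligne's conjecture at `m` is true for the
base changes of `M` to the fixed fields of the hyperelementary subgroups `U` of `Gal(K / ℚ)` (so
`K / K^U` is a cyclic extension of degree prime to `p`, followed downwards by a `p`-extension) and the
values at `m` are not zero there, then it is true for `M`, and for the base changes of `M` to all
subfields of `K`. No twist by a character occurs, only base changes. For `m > 1 + w/2` the values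
are not zero by absolute convergence; by the functional equation this covers all critical `m` but the
central and the near central ones.

The case in mind: `M` is potentially automorphic over `K`. Then it is automorphic over all `K^U`, as
hyperelementary groups are solvable, by the descent along solvable extensions; if `K` is totally
real then so are all the `K^U`. So Deligne's conjecture for automorphic motives over number fields
implies Deligne's conjecture, with the exact field of rationality `E`, for potentially automorphic
motives over `ℚ`.

The proof: by Solomon's induction theorem (in the starting files, `Pool.Agent.R389.one_mem_sol`)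
there are integers `n_U` with `∑ n_U Ind_U 1 = 1`. Then `L(s, M) = ∏ L(s, M_{K^U})^(n_U)`, from the
inductivity of the Artin L-functions with weights (`Pool.Agent.K9h41.DC.LInv`, as in the starting
files `Pool.Agent.K4H74.SC`), the exponents of the periods match by evaluating at the identity and
at a complex conjugation (`fx_one`, `fx_real`), and the product of the `√d(K^U)^(n_U)` is rational,
because `Gal(K / ℚ)` acts on it by the product of the signs of the permutations of the cosets of `U`
(`exists_disc`), which is the determinant of the virtual representation `∑ n_U Ind_U 1 = 1`
(`prod_sg`). -/

namespace Pool.Agent.Results.MP_100fe7_nt.HyperelementaryBaseChange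

open Pool.Agent.K9h41.DC

/-- **Deligne's conjecture descends from hyperelementary base changes.** Let `D` be the data of a
motive `M` over `ℚ` with coefficients in the number field `E`, pure of weight `w`, let `K` be a
finite Galois extension of `ℚ` and let `m` be an integer. Suppose that for every hyperelementary
subgroup `U` of the Galois group Deligne's conjecture at `m` holds for the base change of `M` to the
fixed field of `U`, and, if `m ≤ 1 + w/2`, that the value at `m` of its L-function is not zero.

Then for every subfield `F` of `K` Deligne's conjecture at `m` holds for the base change of `M` to
`F`, with a nonzero number `e` of `E`, and in particular (for `F = ℚ`) it holds for `M`: there is one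
number `e ≠ 0` of `E` such that for all embeddings `ι` of `E` the L-function of `M` at `ι` has at `m`
the value `ι(e) (2 π i)^(m n) c^ε(M)`, where `ε` is the sign of `(-1)^m` and `n` the dimension of
`M^ε`. -/
theorem result {E : Type} [Field E] [NumberField E] (D : MotiveData E)
    (K : Type) [Field K] [NumberField K] [IsGalois ℚ K] (m : ℤ)
    (hD : ∀ U : Subgroup (K ≃ₐ[ℚ] K), Hyperelementary U →
      ∃ e : E, DeligneWith D (IntermediateField.fixedField U) m e)
    (hN : (m : ℝ) ≤ 1 + (D.w : ℝ) / 2 → ∀ U : Subgroup (K ≃ₐ[ℚ] K), Hyperelementary U →
      ∃ ι : E →+* ℂ, ¬ HasLValue D ι (IntermediateField.fixedField U) m 0) :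
    (∀ F : IntermediateField ℚ K, ∃ e : E, e ≠ 0 ∧ DeligneWith D F m e) ∧
    ∃ e : E, e ≠ 0 ∧ ∀ ι : E →+* ℂ, HasLValue D ι ℚ m
      (ι e * ((2 * Real.pi * Complex.I) ^ (m * D.n) * D.period ι m)) :=
  main D K m hD hN

end Pool.Agent.Results.MP_100fe7_nt.HyperelementaryBaseChange
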