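import Pool.Agent.K9h40.DT.Mn

set_option autoImplicit false

/-! # Deligne's conjecture over totally imaginary fields decides it up to one number

Let `M` be a motive over `ℚ` with coefficients in the number field `E`, pure of weight `w` and
without `(w/2, w/2)`-classes. The theorem uses the data of `M` in `Pool.Agent.K9h41.DC.MotiveData`
(in `Pool.Agent.K9h41.DC.Df`): the characteristic polynomials of the Frobenius elements, with
coefficients in `E`, outside a finite set of primes, and for every embedding `ι` of `E` in `ℂ` the
matrices of Deligne's isomorphisms `I⁺` and `I⁻` in bases over `E`, whose determinants are the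
periods `c⁺` and `c⁻` at `ι`. The Euler factors at the primes of the finite set are left out; this
changes the values of the L-functions by factors in `E`.

For a number field `k` let `M_k` be the base change of `M` to `k`; by restriction of scalars it is
again a motive over `ℚ`. If `2 n` is the rank of `M` and if `k` has `r₁` real and `r₂` complex
places and the discriminant `d`, its period, with the power of `2 π i`, is

  `P(k) = (2 π i)^(m n [k : ℚ]) c^ε(M)^(r₁ + r₂) c^(-ε)(M)^(r₂) √d^n`   (`delignePeriod`)

with the sign `ε` of `(-1)^m`. Deligne's conjecture for `M_k` at `m` is that the value at `m` of its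
L-function is `ι(e) P(k)` at all embeddings `ι`, with one number `e` of `E` (`DeligneWith D k m e`).
If `k` is totally imaginary then `c⁺` and `c⁻` occur in `P(k)` only in powers of the product
`c⁺ c⁻`. So for these fields the conjecture seems to say nothing about the number `c^ε(M)` alone,
which is the period of `M` itself.

The theorem: up to this one number the totally imaginary fields decide Deligne's conjecture over all
number fields. Let `Δ(k)` be the value at `m` of the L-function of `M_k`, divided by `P(k)`, a
family of complex numbers indexed by the embeddings of `E`. Let `F₀` and `F₁` be number fields with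
`r₁(F₀)` and `r₁(F₁)` real places, and let `a₀ r₁(F₀) = a₁ r₁(F₁)`. There are a finite Galois
extension `K` of `ℚ`, which contains them, and a power `2^j`, such that for all motives `M` and all
integers `m` the following is true: if Deligne's conjecture at `m`, with nonzero values, is true for
the base changes of `M` to the totally imaginary ones among the fields `K^U`, for the hyperelementary
subgroups `U` of `Gal(K / ℚ)`, then

  `Δ(F₀)^(2^j a₀) = e Δ(F₁)^(2^j a₁)`   with a number `e ≠ 0` of `E`.

If `F₀` and `F₁` are totally real, then `j = 0`: the relation is exact. Two consequences: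

* For all totally real number fields `F`, Deligne's conjecture for `M` over totally imaginary fields
  implies `Δ(F) = e Δ(ℚ)^[F : ℚ]`. This is a relation without periods between the values at `m` of
  the L-functions of `M_F` and of `M`: `L(m, M_F) = e √d_F^n L(m, M)^[F : ℚ]`. So if the conjecture
  is true for `M` itself and for the base changes of `M` to all totally imaginary number fields, then
  it is true for the base changes of `M` to all totally real number fields.
* For all number fields `F` it implies `Δ(F)^(2^j) = e Δ(ℚ)^(2^j r₁(F))`. So if for one number field
  with a real place no power of `Δ` is in `E`, then for none; and if the conjecture is true for one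
  number field with a real place, then for all number fields some power of `Δ` is in `E`.

The proof. Let `K₁` be a Galois number field with `F₀, F₁ ⊆ K₁` and `√-1 ∈ K₁`, let `c` be a
complex conjugation, and let `θ` generate the field of the `x ∈ K₁` with `c x = x`. Let
`β = (θ - a)(b - θ)`, where `a < θ < b` are rational numbers such that no other real conjugate
of `θ` is between `a` and `b`. Let `K` be a Galois number field which contains `K₁` and `√β`. If `g`
in `Gal(K / ℚ)` commutes with `c`, then `g √β` is real, so that `g β ≥ 0` and `g θ = θ`: so `g` acts
on `K₁` like `1` or `c` (`exists_field`). Let `ψ = a₀ Ind_{F₀} 1 - a₁ Ind_{F₁} 1`, a character which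
vanishes at `c`, and let `T` be the group generated by the characters `Ind_V 1` with `K^V` totally
imaginary. For every prime number `p` there is an integer prime to `p` which is a combination of the
permutation characters of the `p`-hyperelementary subgroups `U` (from the starting files,
`Pool.Agent.H302R3.exists_all_prime_to`). If `U` contains no complex conjugation, then `ψ Ind_U 1` is
a combination of characters `Ind_V 1` with `V` in a conjugate of `U`, which are in `T`. Let `U`
contain a complex conjugation `c'`.

If `p` is odd, then `c'` is central in `U`, so that `U` acts on `K₁` through `1, c'`, and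
`2 ψ Ind_U 1` is a multiple of `Ind_{U ∩ N} 1`, where `N = Gal(K / K₁)`; the fixed field of `U ∩ N`
is totally imaginary. So for all odd `p` a multiple of `ψ` prime to `p`, and therefore a multiple
of `ψ` by a power of `2`, is in `T` (`relation`). If `F₀` and `F₁` are totally real, then `U` acts
trivially on them, and `ψ Ind_U 1 = 0`.

Let `p = 2` and let `F₀` and `F₁` be totally real. If `z` generates the normal cyclic subgroup
of `U`, then `z c' z c'` commutes with `c'`, so that `z² ∈ M = Gal(K / K₂)`, where `K₂` is the Galois
closure of `F₀ F₁`, and `z ∈ M`; so `U` acts on `K₂` through a `2`-group. Let `W₁ ⊆ W` be subgroups of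
`U` which contain `U ∩ M`, with index `2`, let `ε` be the character of `W` with the kernel `W₁`
and `χ` the one of `ℚ(√-1)`. Then `ε - 1 = (1 + χ)(1 + ε) - (1 + χ) - (1 + χ ε)`, and the three
terms are in `T`, because `χ` and `χ ε` are `-1` at the complex conjugations in `W`. So modulo `T`
the permutation characters of `F₀` and `F₁` are constant on `U` (`chain`, `mem_C`), and `ψ Ind_U 1`
is in `T`. So `ψ` itself is in `T` (`one_mult`).

The relation between the characters gives the one between the L-functions (inductivity; library of
`MP_100fe7_nt.HyperelementaryBaseChange`) and between the periods: the exponents match by evaluating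
at the identity and at a complex conjugation, and the product of the square roots of the
discriminants is rational. -/

namespace Pool.Agent.Results.MP_100fe7_nt.TotallyImaginaryFields

open Pool.Agent.K9h41.DC Pool.Agent.K9h40.DT

/-- **Deligne's conjecture over totally imaginary fields.** Let `F₀` and `F₁` be number fields and
let `a₀` and `a₁` be natural numbers with `a₀ r₁(F₀) = a₁ r₁(F₁)`, where `r₁` is the number of
the real places. There are a finite Galois extension `K` of `ℚ`, which contains `F₀` and `F₁`, and a
number `j`, with `j = 0` if `F₀` and `F₁` are totally real, such that for all data `D` of motives `M`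
over `ℚ` with coefficients in number fields `E` and all integers `m`:

suppose that for every hyperelementary subgroup `U` of `Gal(K / ℚ)` whose fixed field is totally
complex Deligne's conjecture at `m` is true for the base change of `M` to this field, with a nonzero
number `e` of `E`. Let `z₀ ι` and `z₁ ι` be the values at `m` of the L-functions of the base changes
of `M` to `F₀` and to `F₁`, at the embeddings `ι` of `E`, and let `P₀ ι` and `P₁ ι` be Deligne's
periods. Then there is one number `e ≠ 0` of `E` such that for all `ι`

  `(z₀ ι / P₀ ι) ^ (2^j a₀) = ι(e) (z₁ ι / P₁ ι) ^ (2^j a₁)`. -/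
theorem result (F₀ F₁ : Type) [Field F₀] [NumberField F₀] [Field F₁] [NumberField F₁]
    (a₀ a₁ : ℕ) (hr : a₀ * NumberField.InfinitePlace.nrRealPlaces F₀
      = a₁ * NumberField.InfinitePlace.nrRealPlaces F₁) :
    ∃ (K : Type) (_ : Field K) (_ : NumberField K) (_ : IsGalois ℚ K) (j : ℕ),
      Nonempty (F₀ →+* K) ∧ Nonempty (F₁ →+* K) ∧
      (NumberField.IsTotallyReal F₀ → NumberField.IsTotallyReal F₁ → j = 0) ∧
      ∀ {E : Type} [Field E] [NumberField E] (D : MotiveData E) (m : ℤ),
        (∀ U : Subgroup (K ≃ₐ[ℚ] K), Hyperelementary U →
          NumberField.IsTotallyComplex (IntermediateField.fixedField U) →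
          ∃ e : E, e ≠ 0 ∧ DeligneWith D (IntermediateField.fixedField U) m e) →
        ∀ δ₀ δ₁ : ℂ, δ₀ ^ 2 = (NumberField.discr F₀ : ℂ) → δ₁ ^ 2 = (NumberField.discr F₁ : ℂ) →
        ∀ z₀ z₁ : (E →+* ℂ) → ℂ, (∀ ι, HasLValue D ι F₀ m (z₀ ι)) →
          (∀ ι, HasLValue D ι F₁ m (z₁ ι)) →
        ∃ e : E, e ≠ 0 ∧ ∀ ι : E →+* ℂ,
          (z₀ ι / delignePeriod D ι F₀ m δ₀) ^ (2 ^ j * a₀)
            = ι e * (z₁ ι / delignePeriod D ι F₁ m δ₁) ^ (2 ^ j * a₁) :=
  main F₀ F₁ a₀ a₁ hr

end Pool.Agent.Results.MP_100fe7_nt.TotallyImaginaryFields
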