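import Pool.Agent.K9h41.DC.Dx

set_option autoImplicit false

/-! # Deligne's conjecture for all Artin twists: only the unramified twists over totally complex
fields, the totally odd twists over totally real fields and the base changes matter

Let `M` be a motive over `ℚ` with coefficients in `E`, pure of weight `w` and without
`(w/2, w/2)`-classes, given by the data `MotiveData` (in `Pool.Agent.K9h41.DC.Df`): the
characteristic polynomials of the Frobenius elements outside a finite set of primes, and the
matrices of Deligne's isomorphisms `I⁺` and `I⁻` for all embeddings of `E`. For a character `χ` of
the Galois group of an extension `L / K` of number fields let `M_K ⊗ χ` be the twist of the base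
change of `M` to `K`; by restriction of scalars it is a motive over `ℚ`, the tensor product of `M`
and an Artin motive. It has the same critical integers `m` as `M`. Its L-function is the exponential
of the sum of the terms `Tr(Frob_p^n | M) χ(p^n) / (n N(p)^(n s))`, where `χ(p^n)` is the mean of `χ` over
the powers of the (arithmetic) Frobenius elements. Let `a` and `b` be the multiplicities of the
eigenvalues `1` and `-1` of complex conjugation on the representation of the Galois group of `ℚ`
induced from `χ`, let `2 n` be the rank of `M` and let `y_ι(χ)` be the value of the L-function of
`M_K ⊗ χ` at `m`, for the embedding `ι` of `E`, divided by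

  `(2 π i)^(m n (a + b)) c^ε(M)^a c^(-ε)(M)^b`,   `ε` the sign of `(-1)^m`.

The remaining factor of Deligne's period of `M_K ⊗ χ` is the `n`-th power of the period of the Artin
motive, on which the automorphisms of `ℂ` act by a determinant (for a Dirichlet character it is the
Gauss sum). So Deligne's conjecture for `M_K ⊗ χ` at `m` (with a nonzero value) is the formula

  `σ(y_ι(χ)) det(σ | Ind(σ ∘ χ))^n = y_{σ ∘ ι}(σ ∘ χ)`   for all automorphisms `σ` of `ℂ` and all `ι`.

`DeligneTwist D K L S χ m` (in `Pool.Agent.K9h41.DC.Du`) says that this is true up to a root of
unity, of an order all whose prime factors are in `S`; for `S = ∅` it is Deligne's conjecture.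

The theorem: fix `m₀ ≥ 1`. Up to roots of unity with an order composed of prime factors of
`2 [N : ℚ]`, where `N / ℚ` is a Galois extension with `L ⊆ N`, Deligne's conjecture for `M_K ⊗ χ`
follows from Deligne's conjecture for the twists by

* the trivial characters (so for the base changes of `M` to number fields);
* the totally odd linear characters of totally real fields;
* the linear characters of totally complex fields which are unramified at all finite primes and
  trivial on the decomposition groups of the primes above `m₀`.

So for ramified characters nothing is needed but the case of totally odd characters of totally real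
fields. The proof combines the theorem on inductive invariants of Artin characters of the starting
files (`Pool.Agent.K4H34.AL.power_form2`, applied to Stark's conjecture in `MP_46b841_nt`) with the
following inductive invariants: the logarithms of the L-functions of all the `M_K ⊗ (σ ∘ χ)`
(`LInv`), the traces of complex conjugation and of the identity on the induced representation
(`emInv`), and the determinants of the automorphisms of `ℂ` (`detInv`). -/

namespace Pool.Agent.Results.MP_100fe7_nt.UnramifiedTwists

open Pool.Agent.K9h41.DC Pool.Agent.K9h41.DC.Tw NumberField

/-- **Deligne's conjecture for all Artin twists, from the unramified and the totally odd ones.** Let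
`D` be the data of a motive `M` over `ℚ` with coefficients in `E`, let `m` be an integer, `m₀ ≥ 1`,
let `χ` be a character of the Galois group of a Galois extension `L / K` of number fields, and let
`N` be a Galois extension of `ℚ` which contains `L`, with `g ^ e = 1` for all `g` in its Galois
group. Suppose that Deligne's conjecture at `m`, with a nonzero value and up to roots of unity of an
order with prime factors in `S`, holds

* (`h1`) for the base changes of `M` to all number fields `F`,
* (`h2`) for the twists `M_F ⊗ ψ` with totally real fields `F` and linear characters `ψ` of the
  Galois groups of extensions `H / F` with the value `-1` at all complex conjugations,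
* (`h3`) for the twists `M_F ⊗ ψ` with totally complex fields `F` and faithful linear characters `ψ`
  with `ψ ^ (2 e) = 1` of the Galois groups of extensions `H / F` which are unramified at all finite
  primes and in which the primes above `m₀` split completely,

and suppose that the L-functions of the `M_K ⊗ (σ ∘ χ)` have meromorphic continuations to the half
plane `Re s ≥ m`. Then Deligne's conjecture at `m` holds for `M_K ⊗ χ`, with a nonzero value, up to
roots of unity of an order with prime factors in `S` or dividing `2 [N : ℚ]`. -/
theorem result {E : Type} [Field E] (D : MotiveData E) (m : ℤ) (S : Set ℕ) (m₀ : ℕ) (hm₀ : m₀ ≠ 0)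
    (K L : Type) [Field K] [NumberField K] [Field L] [NumberField L] [Algebra K L] [IsGalois K L]
    (χ : (L ≃ₐ[K] L) → ℂ) (hχ : IsCharacter χ)
    (N : Type) [Field N] [NumberField N] [IsGalois ℚ N] [Algebra L N] (e : ℕ)
    (he : ∀ g : N ≃ₐ[ℚ] N, g ^ e = 1)
    (h1 : ∀ (F : Type) [Field F] [NumberField F], DeligneTwist D F F S (fun _ => 1) m)
    (h2 : ∀ (F H : Type) [Field F] [NumberField F] [Field H] [NumberField H] [Algebra F H]
      [IsGalois F H], IsTotallyReal F → ∀ ψ : (H ≃ₐ[F] H) →* ℂˣ, TotallyOdd ψ →
        DeligneTwist D F H S (fun g => (ψ g : ℂ)) m)
    (h3 : ∀ (F H : Type) [Field F] [NumberField F] [Field H] [NumberField H] [Algebra F H]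
      [IsGalois F H], IsTotallyComplex F → UnramifiedSplit F H m₀ →
        ∀ ψ : (H ≃ₐ[F] H) →* ℂˣ, Function.Injective ψ → ψ ^ (2 * e) = 1 →
          DeligneTwist D F H S (fun g => (ψ g : ℂ)) m)
    (hmer : ∀ (ι : E →+* ℂ) (σ : RingAut ℂ), ∃ f, IsTwistL D ι K L (fun g => σ (χ g)) m f) :
    DeligneTwist D K L (S ∪ {p | p ∣ 2 * Module.finrank ℚ N}) χ m :=
  main D hm₀ hχ N he h1 h2 h3 hmer

end Pool.Agent.Results.MP_100fe7_nt.UnramifiedTwists
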